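import Pool.Agent.Work.MP_e10cd8_co.Tn.Grid

/-! Dense subsets of a large cube contain boxes; the chain lemma for dense subsets. -/

namespace Pool.Agent.Work.MP_e10cd8_co.Tn

open Classical Finset

/-- The number of points with a property, as a real number. -/
noncomputable def cnt {α : Type} [Fintype α] (P : α → Prop) : ℝ := ∑ a, if P a then 1 else 0

theorem cnt_eq {α : Type} [Fintype α] (P : α → Prop) [DecidablePred P] :
    cnt P = ((univ.filter P).card : ℝ) := by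
  simp only [cnt, card_filter, Nat.cast_sum, Nat.cast_ite, Nat.cast_one, Nat.cast_zero]
  exact sum_congr rfl fun _ _ => by congr

theorem cnt_prod {X Ω : Type} [Fintype X] [Fintype Ω] (S : X × Ω → Prop) :
    ∑ ω, cnt (fun x => S (x, ω)) = cnt S := by
  unfold cnt
  rw [Fintype.sum_prod_type_right]

theorem cnt_prod' {X Ω : Type} [Fintype X] [Fintype Ω] (S : X × Ω → Prop) :
    ∑ x, cnt (fun ω => S (x, ω)) = cnt S := by
  unfold cnt
  rw [Fintype.sum_prod_type]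

theorem inter (δ : ℝ) (hδ : 0 < δ) (q : ℕ) : ∃ δ' : ℝ, 0 < δ' ∧ ∃ L0 : ℕ,
    ∀ (X Ω : Type) [Fintype X] [Fintype Ω] (S : X → Ω → Prop), L0 ≤ Fintype.card X →
      δ * Fintype.card X * Fintype.card Ω ≤ ∑ ω, cnt (fun x => S x ω) →
      ∃ α : Fin q ↪ X, δ' * Fintype.card Ω ≤ cnt (fun ω => ∀ i, S (α i) ω) := by
  refine ⟨δ / 2 * (δ / 4) ^ q, by positivity, max (q + 1) ⌈4 * q / δ⌉₊, fun X Ω _ _ S hX hS => ?_⟩
  simp only [cnt_eq] at hS ⊢
  set n := Fintype.card X with hn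
  have hqn1 : q + 1 ≤ n := (le_max_left _ _).trans hX
  have hqn : q ≤ n := by omega
  have hq4 : (q : ℝ) ≤ δ * n / 4 := by
    have h1 : 4 * q / δ ≤ n :=
      (Nat.le_ceil _).trans (by exact_mod_cast (le_max_right _ _).trans hX)
    rw [div_le_iff₀ hδ] at h1
    linarith
  set d : Ω → ℕ := fun ω => (univ.filter fun x => S x ω).card with hd
  have hdn : ∀ ω, d ω ≤ n := fun ω => card_le_univ _
  set Rich := univ.filter fun ω => δ * n / 2 ≤ (d ω : ℝ) with hRich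
  have hn0 : (0 : ℝ) ≤ n := Nat.cast_nonneg _
  have hR : δ / 2 * n * Fintype.card Ω ≤ n * (Rich.card : ℝ) := by
    have h1 : ∑ ω, (d ω : ℝ) ≤ ∑ ω : Ω, (δ * n / 2 + if δ * n / 2 ≤ (d ω : ℝ) then (n : ℝ) else 0) := by
      refine sum_le_sum fun ω _ => ?_
      have : (d ω : ℝ) ≤ n := by exact_mod_cast hdn ω
      have h0 : 0 ≤ δ * n / 2 := by positivity
      split_ifs with h <;> linarith
    rw [sum_add_distrib, ← sum_filter, sum_const, sum_const, card_univ, nsmul_eq_mul,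
      nsmul_eq_mul] at h1
    nlinarith
  have hemb : ∀ ω, (d ω).descFactorial q ≤
      (univ.filter fun α : Fin q ↪ X => ∀ i, S (α i) ω).card := by
    intro ω
    have h1 : (d ω).descFactorial q = (univ : Finset (Fin q ↪ {x // S x ω})).card := by
      rw [card_univ, Fintype.card_embedding_eq, Fintype.card_fin, Fintype.card_subtype]
    rw [h1]
    refine card_le_card_of_injOn (fun e => e.trans (Function.Embedding.subtype _)) ?_ ?_
    · intro e _
      simp only [coe_filter, mem_univ, true_and, Set.mem_setOf_eq]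
      exact fun i => (e i).2
    · intro e _ e' _ h
      ext i
      exact congrArg (fun f : Fin q ↪ X => f i) h
  have hswap : ∑ α : Fin q ↪ X, ((univ.filter fun ω => ∀ i, S (α i) ω).card : ℝ) =
      ∑ ω, ((univ.filter fun α : Fin q ↪ X => ∀ i, S (α i) ω).card : ℝ) := by
    simp only [card_filter, Nat.cast_sum]
    exact sum_comm
  have hlow : (Rich.card : ℝ) * (δ * n / 4) ^ q ≤
      ∑ α : Fin q ↪ X, ((univ.filter fun ω => ∀ i, S (α i) ω).card : ℝ) := by
    rw [hswap, ← nsmul_eq_mul]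
    refine (card_nsmul_le_sum _ _ _ fun ω hω => ?_).trans
      (sum_le_sum_of_subset_of_nonneg (subset_univ Rich) fun _ _ _ => Nat.cast_nonneg _)
    have h1 : δ * n / 2 ≤ (d ω : ℝ) := (mem_filter.mp hω).2
    have h2 : q ≤ d ω + 1 := by
      have : (q : ℝ) ≤ d ω + 1 := by have : 0 ≤ δ * n := by positivity
                                     linarith
      exact_mod_cast this
    have h3 : δ * n / 4 ≤ ((d ω + 1 - q : ℕ) : ℝ) := by
      rw [Nat.cast_sub h2]; push_cast; linarith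
    calc (δ * n / 4) ^ q ≤ ((d ω + 1 - q : ℕ) : ℝ) ^ q := pow_le_pow_left₀ (by positivity) h3 q
      _ ≤ ((d ω).descFactorial q : ℝ) := by exact_mod_cast Nat.pow_sub_le_descFactorial (d ω) q
      _ ≤ _ := by exact_mod_cast hemb ω
  have hne : (univ : Finset (Fin q ↪ X)).Nonempty := by
    rw [← card_pos, card_univ, Fintype.card_embedding_eq, Fintype.card_fin]
    exact Nat.descFactorial_pos.mpr hqn
  have hcard : ((univ : Finset (Fin q ↪ X)).card : ℝ) ≤ (n : ℝ) ^ q := by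
    rw [card_univ, Fintype.card_embedding_eq, Fintype.card_fin]
    exact_mod_cast Nat.descFactorial_le_pow n q
  have hpos : 0 < n := by omega
  · have hn' : (0 : ℝ) < n := by exact_mod_cast hpos
    have hR' : δ / 2 * Fintype.card Ω ≤ (Rich.card : ℝ) := by
      refine le_of_mul_le_mul_left ?_ hn'
      linarith
    obtain ⟨α, -, hα⟩ := exists_le_of_sum_le hne
      (f := fun _ => δ / 2 * (δ / 4) ^ q * (Fintype.card Ω : ℝ))
      (g := fun α : Fin q ↪ X => ((univ.filter fun ω => ∀ i, S (α i) ω).card : ℝ)) (by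
        refine le_trans ?_ hlow
        rw [sum_const, nsmul_eq_mul]
        calc _ ≤ (n : ℝ) ^ q * (δ / 2 * (δ / 4) ^ q * (Fintype.card Ω : ℝ)) := by gcongr
          _ = (δ / 2 * Fintype.card Ω) * (δ * n / 4) ^ q := by ring
          _ ≤ _ := by gcongr)
    exact ⟨α, hα⟩

theorem box (δ : ℝ) (hδ : 0 < δ) (L1 L2 L3 : ℕ) : ∃ L0 : ℕ, ∀ L : ℕ, L0 ≤ L →
    ∀ S : Fin L × Fin L × Fin L → Prop, δ * (L : ℝ) ^ 3 ≤ cnt S →
      ∃ (α : Fin L1 ↪ Fin L) (β : Fin L2 ↪ Fin L) (γ : Fin L3 ↪ Fin L),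
        ∀ a b c, S (α a, β b, γ c) := by
  obtain ⟨δ1, hδ1, M1, h1⟩ := inter δ hδ L1
  obtain ⟨δ2, hδ2, M2, h2⟩ := inter δ1 hδ1 L2
  refine ⟨max (max M1 M2) ⌈L3 / δ2⌉₊, fun L hL S hS => ?_⟩
  have hM1 : M1 ≤ L := ((le_max_left _ _).trans (le_max_left _ _)).trans hL
  have hM2 : M2 ≤ L := ((le_max_right _ _).trans (le_max_left _ _)).trans hL
  have hM3 : (L3 : ℝ) ≤ δ2 * L := by
    have : L3 / δ2 ≤ L := (Nat.le_ceil _).trans (by exact_mod_cast (le_max_right _ _).trans hL)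
    rw [div_le_iff₀ hδ2] at this
    linarith
  obtain ⟨α, hα⟩ := h1 (Fin L) (Fin L × Fin L) (fun a p => S (a, p)) (by simpa using hM1) (by
    rw [cnt_prod S]
    simp only [Fintype.card_prod, Fintype.card_fin, Nat.cast_mul]
    linarith)
  obtain ⟨β, hβ⟩ := h2 (Fin L) (Fin L) (fun b c => ∀ i, S (α i, b, c)) (by simpa using hM2) (by
    rw [cnt_prod (fun ω : Fin L × Fin L => ∀ i, S (α i, ω))]
    simp only [Fintype.card_prod, Fintype.card_fin, Nat.cast_mul] at hα ⊢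
    linarith)
  rw [Fintype.card_fin, cnt_eq] at hβ
  obtain ⟨C, hC, hCc⟩ := exists_subset_card_eq (n := L3)
    (s := univ.filter fun ω => ∀ j i, S (α i, β j, ω)) (by
      exact_mod_cast hM3.trans hβ)
  refine ⟨α, β, (C.orderEmbOfFin hCc).toEmbedding, fun a b c => ?_⟩
  exact (mem_filter.mp (hC (orderEmbOfFin_mem C hCc c))).2 b a

theorem dense_grid (δ : ℝ) (hδ : 0 < δ) (q : ℕ) (hq : 2 ≤ q) : ∃ L : ℕ, 0 < L ∧
    ∀ (S : Fin L × Fin L × Fin L → Prop) (ρ : Fin L × Fin L × Fin L → Fin L × Fin L × Fin L → Prop),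
      δ * (L : ℝ) ^ 3 ≤ cnt S →
      (∀ p p', S p → S p' → p ≠ p' → ρ p p' ∨ ρ p' p) →
      ∃ (α β γ : Fin q → Fin L) (z : Fin (q * q) → Fin L × Fin L × Fin L),
        (∀ i, S (z i) ∧ (∃ a, α a = (z i).1) ∧ (∃ b, β b = (z i).2.1) ∧ ∃ c, γ c = (z i).2.2) ∧
        ∀ i j, i < j → ρ (z i) (z j) := by
  obtain ⟨L1, L2, L3, hg⟩ := grid q hq
  obtain ⟨L0, hb⟩ := box δ hδ L1 L2 L3
  refine ⟨L0 + 1, Nat.succ_pos _, fun S ρ hS hρ => ?_⟩
  obtain ⟨α, β, γ, hbox⟩ := hb (L0 + 1) (Nat.le_succ _) S hS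
  obtain ⟨α', β', γ', z, hz⟩ := hg
    (fun p p' => ρ (α p.1, β p.2.1, γ p.2.2) (α p'.1, β p'.2.1, γ p'.2.2)) (fun p p' hne =>
      hρ _ _ (hbox _ _ _) (hbox _ _ _) fun h => hne (Prod.ext
        (α.injective (congrArg Prod.fst h)) (Prod.ext
          (β.injective (congrArg (fun x => x.2.1) h)) (γ.injective (congrArg (fun x => x.2.2) h)))))
  exact ⟨fun a => α (α' a), fun b => β (β' b), fun c => γ (γ' c),
    fun i => (α (α' (z i).1), β (β' (z i).2.1), γ (γ' (z i).2.2)),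
    fun i => ⟨hbox _ _ _, ⟨_, rfl⟩, ⟨_, rfl⟩, ⟨_, rfl⟩⟩, hz⟩

end Pool.Agent.Work.MP_e10cd8_co.Tn
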