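import Mathlib

/-! Chains indexed by a finite set of positions, slots, and the counting inequality. -/

namespace Pool.Agent.Work.MP_e10cd8_co.Tn

open Classical Finset

variable {V ι : Type} [Fintype V] [Fintype ι] [LinearOrder ι] (r : V → V → Prop) (v0 : V)

/-- `u` is a chain on the positions of `I`. -/
def IsCh (I : Finset ι) (u : ι → V) : Prop := ∀ i ∈ I, ∀ j ∈ I, i < j → r (u i) (u j)

/-- The chains on `I`, with a fixed value elsewhere. -/
noncomputable def Ch (I : Finset ι) : Finset (ι → V) :=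
  univ.filter fun u => (∀ i, i ∉ I → u i = v0) ∧ IsCh r I u

/-- The vertex `w`, put at position `x`, agrees with the vertex at position `i`. -/
def Fit (u : ι → V) (x i : ι) (w : V) : Prop := (i < x → r (u i) w) ∧ (x < i → r w (u i))

/-- The vertices that can be put at position `x`. -/
noncomputable def slot (I : Finset ι) (u : ι → V) (x : ι) : Finset V :=
  univ.filter fun w => ∀ i ∈ I, Fit r u x i w

/-- `S` contains a chain of length `l`. -/
def HasCh (S : Finset V) (l : ℕ) : Prop :=
  ∃ c : List V, c.length = l ∧ c.Pairwise r ∧ ∀ a ∈ c, a ∈ S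

variable {r v0}

theorem mem_Ch {I : Finset ι} {u : ι → V} :
    u ∈ Ch r v0 I ↔ (∀ i, i ∉ I → u i = v0) ∧ IsCh r I u := by simp [Ch]

theorem mem_slot {I : Finset ι} {u : ι → V} {x : ι} {w : V} :
    w ∈ slot r I u x ↔ ∀ i ∈ I, Fit r u x i w := by simp [slot]

theorem IsCh.mono {I I' : Finset ι} {u : ι → V} (h : IsCh r I u) (hI : I' ⊆ I) : IsCh r I' u :=
  fun i hi j hj hij => h i (hI hi) j (hI hj) hij

theorem HasCh.mono {S : Finset V} {l l' : ℕ} (h : HasCh r S l) (hl : l' ≤ l) : HasCh r S l' := by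
  obtain ⟨c, h1, h2, h3⟩ := h
  exact ⟨c.take l', by simp [h1, hl], h2.sublist (List.take_sublist _ _),
    fun a ha => h3 a (List.mem_of_mem_take ha)⟩

theorem slot_update {I : Finset ι} {y : ι} (hy : y ∉ I) (u : ι → V) (w : V) (x : ι) :
    slot r I (Function.update u y w) x = slot r I u x := by
  ext a
  simp only [mem_slot, Fit]
  refine forall₂_congr fun i hi => ?_
  rw [Function.update_of_ne (ne_of_mem_of_not_mem hi hy)]

theorem sum_insert_Ch {I : Finset ι} {x : ι} (hx : x ∉ I) (φ : (ι → V) → ℝ) :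
    ∑ v ∈ Ch r v0 (insert x I), φ v =
      ∑ u ∈ Ch r v0 I, ∑ w ∈ slot r I u x, φ (Function.update u x w) := by
  rw [sum_sigma']
  symm
  refine sum_nbij' (fun p => Function.update p.1 x p.2)
    (fun v => ⟨Function.update v x v0, v x⟩) ?_ ?_ ?_ ?_ ?_
  · rintro ⟨u, w⟩ hp
    obtain ⟨hu, hw⟩ := mem_sigma.mp hp
    obtain ⟨h0, hc⟩ := mem_Ch.mp hu
    have hw' := mem_slot.mp hw
    refine mem_Ch.mpr ⟨fun i hi => ?_, fun i hi j hj hij => ?_⟩
    · rw [mem_insert, not_or] at hi
      show Function.update u x w i = v0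
      rw [Function.update_of_ne hi.1]; exact h0 i hi.2
    · show r (Function.update u x w i) (Function.update u x w j)
      by_cases hix : i = x
      · subst hix
        have hj' : j ∈ I := (mem_insert.mp hj).resolve_left hij.ne'
        rw [Function.update_self, Function.update_of_ne hij.ne']
        exact (hw' j hj').2 hij
      · have hi' : i ∈ I := (mem_insert.mp hi).resolve_left hix
        rw [Function.update_of_ne hix]
        by_cases hjx : j = x
        · subst hjx
          rw [Function.update_self]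
          exact (hw' i hi').1 hij
        · rw [Function.update_of_ne hjx]
          exact hc i hi' j ((mem_insert.mp hj).resolve_left hjx) hij
  · intro v hv
    obtain ⟨h0, hc⟩ := mem_Ch.mp hv
    refine mem_sigma.mpr ⟨mem_Ch.mpr ⟨fun i hi => ?_, fun i hi j hj hij => ?_⟩, ?_⟩
    · show Function.update v x v0 i = v0
      by_cases hix : i = x
      · subst hix; rw [Function.update_self]
      · rw [Function.update_of_ne hix]; exact h0 i (by simp [hix, hi])
    · show r (Function.update v x v0 i) (Function.update v x v0 j)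
      rw [Function.update_of_ne (ne_of_mem_of_not_mem hi hx),
        Function.update_of_ne (ne_of_mem_of_not_mem hj hx)]
      exact hc i (mem_insert_of_mem hi) j (mem_insert_of_mem hj) hij
    · show v x ∈ slot r I (Function.update v x v0) x
      rw [slot_update hx, mem_slot]
      exact fun i hi => ⟨hc i (mem_insert_of_mem hi) x (mem_insert_self _ _),
        hc x (mem_insert_self _ _) i (mem_insert_of_mem hi)⟩
  · rintro ⟨u, w⟩ hp
    obtain ⟨hu, -⟩ := mem_sigma.mp hp
    have h0 := (mem_Ch.mp hu).1 x hx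
    simp only [Function.update_idem, Function.update_self]
    rw [← h0, Function.update_eq_self]
  · intro v _
    simp
  · intro _ _
    rfl

theorem card_insert_Ch {I : Finset ι} {x : ι} (hx : x ∉ I) :
    ((Ch r v0 (insert x I)).card : ℝ) = ∑ u ∈ Ch r v0 I, ((slot r I u x).card : ℝ) := by
  have := sum_insert_Ch (r := r) (v0 := v0) hx (fun _ => 1)
  simpa using this

theorem slot_chain {I : Finset ι} {u : ι → V} (hu : IsCh r I u) {x : ι} (hx : x ∉ I) {l : ℕ}
    (h : HasCh r (slot r I u x) l) : HasCh r univ (I.card + l) := by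
  obtain ⟨c, h1, h2, h3⟩ := h
  have key : ∀ K : Finset ι, K ⊆ I → ((K.sort (· ≤ ·)).map u).Pairwise r := by
    intro K hK
    rw [List.pairwise_map]
    refine ((K.sortedLT_sort).pairwise).imp_of_mem ?_
    intro a b ha hb hab
    exact hu a (hK (by simpa using ha)) b (hK (by simpa using hb)) hab
  refine ⟨((I.filter (· < x)).sort (· ≤ ·)).map u ++ (c ++ ((I.filter (x < ·)).sort (· ≤ ·)).map u),
    ?_, ?_, fun _ _ => mem_univ _⟩
  · have : (I.filter (x < ·)) = I.filter (fun i => ¬ i < x) := by
      refine filter_congr fun i hi => ⟨fun h => not_lt.mpr h.le, fun h => ?_⟩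
      exact lt_of_le_of_ne (not_lt.mp h) (fun e => hx (e ▸ hi))
    have h4 := card_filter_add_card_filter_not (s := I) (fun i => i < x)
    simp only [List.length_append, List.length_map, length_sort, h1, this]
    omega
  · rw [List.pairwise_append, List.pairwise_append]
    refine ⟨key _ (filter_subset _ _), ⟨h2, key _ (filter_subset _ _), ?_⟩, ?_⟩
    · intro a ha b hb
      obtain ⟨j, hj, rfl⟩ := List.mem_map.mp hb
      have hj' : j ∈ I ∧ x < j := by simpa using hj
      exact (mem_slot.mp (h3 a ha) j hj'.1).2 hj'.2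
    · intro a ha b hb
      obtain ⟨i, hi, rfl⟩ := List.mem_map.mp ha
      have hi' : i ∈ I ∧ i < x := by simpa using hi
      rcases List.mem_append.mp hb with hb | hb
      · exact (mem_slot.mp (h3 b hb) i hi'.1).1 hi'.2
      · obtain ⟨j, hj, rfl⟩ := List.mem_map.mp hb
        have hj' : j ∈ I ∧ x < j := by simpa using hj
        exact hu i hi'.1 j hj'.1 (hi'.2.trans hj'.2)

theorem arcs_ge (hs : ∀ a b, a ≠ b → r a b ∨ r b a) (S : Finset V) :
    (S.card : ℝ) ^ 2 - S.card ≤ 2 * ∑ w ∈ S, ((S.filter fun a => r w a).card : ℝ) := by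
  have h1 : ∑ w ∈ S, ((S.filter fun a => r w a).card : ℝ) =
      ∑ w ∈ S, ∑ a ∈ S, if r w a then (1 : ℝ) else 0 := by
    simp only [card_filter, Nat.cast_sum, Nat.cast_ite, Nat.cast_one, Nat.cast_zero]
  have h2 : ∑ w ∈ S, ∑ a ∈ S, (if r w a then (1 : ℝ) else 0) =
      ∑ w ∈ S, ∑ a ∈ S, if r a w then (1 : ℝ) else 0 := sum_comm
  have h3 : (S.card : ℝ) ^ 2 - S.card = ∑ w ∈ S, ∑ a ∈ S, (1 - if w = a then (1 : ℝ) else 0) := by
    simp only [sum_sub_distrib, sum_ite_eq, sum_const, nsmul_eq_mul]
    rw [sum_congr rfl (g := fun _ => (1 : ℝ)) (fun w hw => if_pos hw)]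
    simp [sq]
  rw [h3, two_mul, h1]
  nth_rewrite 2 [h2]
  rw [← sum_add_distrib]
  refine sum_le_sum fun w _ => ?_
  rw [← sum_add_distrib]
  refine sum_le_sum fun a _ => ?_
  by_cases h : w = a
  · rw [if_pos h]; split_ifs <;> norm_num
  · rw [if_neg h]
    rcases hs w a h with h' | h'
    · rw [if_pos h']; split_ifs <;> norm_num
    · rw [if_pos h']; split_ifs <;> norm_num

theorem exists_adj {I : Finset ι} (hI : I.Nonempty) {x : ι} (hx : x ∉ I) :
    ∃ y ∈ I, ∀ i ∈ I, i ≠ y → ((i < x ↔ i < y) ∧ (x < i ↔ y < i)) := by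
  have aux : ∀ y i : ι, i ∈ I → i ≠ y → (i < x ↔ i < y) → (x < i ↔ y < i) := by
    intro y i hi hiy h
    have hix : i ≠ x := fun e => hx (e ▸ hi)
    constructor
    · intro h'
      exact lt_of_le_of_ne (not_lt.mp fun k => lt_asymm h' (h.mpr k)) hiy.symm
    · intro h'
      exact lt_of_le_of_ne (not_lt.mp fun k => lt_asymm h' (h.mp k)) hix.symm
  by_cases h : (I.filter (· < x)).Nonempty
  · have hm := mem_filter.mp (max'_mem _ h)
    refine ⟨_, hm.1, fun i hi hne => ?_⟩
    have : i < x ↔ i < (I.filter (· < x)).max' h :=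
      ⟨fun k => lt_of_le_of_ne (le_max' _ _ (mem_filter.mpr ⟨hi, k⟩)) hne, fun k => k.trans hm.2⟩
    exact ⟨this, aux _ i hi hne this⟩
  · refine ⟨_, min'_mem _ hI, fun i hi hne => ?_⟩
    have : i < x ↔ i < I.min' hI :=
      ⟨fun k => absurd ⟨i, mem_filter.mpr ⟨hi, k⟩⟩ h, fun k => absurd (min'_le _ _ hi) (not_le.mpr k)⟩
    exact ⟨this, aux _ i hi hne this⟩

theorem moon (hs : ∀ a b, a ≠ b → r a b ∨ r b a) (s : ℕ) :
    ∀ (I : Finset ι) (x : ι), I.card = s → x ∉ I →
      (((Fintype.card V : ℝ) + 1) / 2 ^ s - 1) * (Ch r v0 I).card ≤ (Ch r v0 (insert x I)).card := by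
  induction s with
  | zero =>
    intro I x hI hx
    rw [card_insert_Ch hx, card_eq_zero.mp hI]
    simp [slot, mul_comm]
  | succ s ih =>
    intro I x hI hx
    obtain ⟨y, hy, hadj⟩ := exists_adj (card_pos.mp (by omega)) hx
    obtain ⟨I', hyI', rfl⟩ : ∃ I', y ∉ I' ∧ I = insert y I' :=
      ⟨I.erase y, notMem_erase _ _, (insert_erase hy).symm⟩
    have hc : I'.card = s := by rw [card_insert_of_notMem hyI'] at hI; omega
    have hxy : x ≠ y := fun e => hx (e ▸ hy)
    have ih' := ih I' y hc hyI'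
    have hsl : ∀ u : ι → V, slot r I' u x = slot r I' u y := by
      intro u; ext a
      simp only [mem_slot, Fit]
      refine forall₂_congr fun i hi => ?_
      have := hadj i (mem_insert_of_mem hi) (fun e => hyI' (e ▸ hi))
      rw [this.1, this.2]
    have hb := card_insert_Ch (r := r) (v0 := v0) hyI'
    have hcc : ∑ u ∈ Ch r v0 I', (((slot r I' u y).card : ℝ) ^ 2 - (slot r I' u y).card) ≤
        2 * (Ch r v0 (insert x (insert y I'))).card := by
      rw [card_insert_Ch hx, sum_insert_Ch hyI', mul_sum]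
      refine sum_le_sum fun u _ => ?_
      have hins : ∀ w, slot r (insert y I') (Function.update u y w) x =
          (slot r I' u y).filter fun a => (y < x → r w a) ∧ (x < y → r a w) := by
        intro w; ext a
        rw [mem_filter, ← hsl, ← slot_update hyI' u w x, mem_slot, mem_slot, forall_mem_insert,
          and_comm]
        simp only [Fit, Function.update_self]
      rcases lt_or_gt_of_ne hxy with h | h
      · refine (arcs_ge (r := fun a b => r b a) (fun a b k => (hs a b k).symm) _).trans_eq ?_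
        simp only [hins, h, lt_asymm h, false_imp_iff, true_imp_iff, true_and]
      · refine (arcs_ge hs _).trans_eq ?_
        simp only [hins, h, lt_asymm h, false_imp_iff, true_imp_iff, and_true]
    rw [sum_sub_distrib, ← hb] at hcc
    have hCS := sq_sum_le_card_mul_sum_sq (s := Ch r v0 I')
      (f := fun u => ((slot r I' u y).card : ℝ))
    rw [← hb] at hCS
    set a : ℝ := ((Ch r v0 I').card : ℝ)
    set b : ℝ := ((Ch r v0 (insert y I')).card : ℝ)
    set Q : ℝ := ∑ u ∈ Ch r v0 I', ((slot r I' u y).card : ℝ) ^ 2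
    set ρ : ℝ := ((Fintype.card V : ℝ) + 1) / 2 ^ s - 1 with hρ
    have hρ' : ((Fintype.card V : ℝ) + 1) / 2 ^ (s + 1) - 1 = (ρ - 1) / 2 := by
      rw [hρ, pow_succ]; ring
    rw [hρ']
    have ha : 0 ≤ a := Nat.cast_nonneg _
    have hb0 : 0 ≤ b := Nat.cast_nonneg _
    have hQ : 0 ≤ Q := sum_nonneg fun _ _ => sq_nonneg _
    have : ρ * b ≤ Q := by
      rcases ha.eq_or_lt with h0 | h0
      · have : b = 0 := by rw [← h0] at hCS; nlinarith
        rw [this]; simpa using hQ
      · refine le_of_mul_le_mul_left ?_ h0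
        nlinarith [mul_le_mul_of_nonneg_right ih' hb0]
    linarith

end Pool.Agent.Work.MP_e10cd8_co.Tn
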