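import Pool.Agent.Work.MP_e10cd8_co.Tn.Sig

/-! From a chain with many large slots to a longer chain. -/

namespace Pool.Agent.Work.MP_e10cd8_co.Tn

open Classical Finset

variable {V ι : Type} [Fintype V] [Fintype ι] [LinearOrder ι] {r : V → V → Prop}

theorem stearns (hs : ∀ a b, a ≠ b → r a b ∨ r b a) (l : ℕ) :
    ∀ S : Finset V, 2 ^ l ≤ S.card → HasCh r S l := by
  induction l with
  | zero => exact fun S _ => ⟨[], rfl, List.Pairwise.nil, by simp⟩
  | succ l ih =>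
    intro S hS
    have hpos : 0 < S.card := lt_of_lt_of_le (by positivity) hS
    have : ∃ w ∈ S, 2 ^ l ≤ (S.filter fun a => r w a).card := by
      by_contra hcon
      push Not at hcon
      have h1 := arcs_ge hs S
      have h2 : ∑ w ∈ S, ((S.filter fun a => r w a).card : ℝ) ≤ S.card • ((2 : ℝ) ^ l - 1) :=
        sum_le_card_nsmul _ _ _ fun w hw => by
          have : (((S.filter fun a => r w a).card + 1 : ℕ) : ℝ) ≤ ((2 ^ l : ℕ) : ℝ) := by
            exact_mod_cast hcon w hw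
          push_cast at this
          linarith
      rw [nsmul_eq_mul] at h2
      have h3 : (2 : ℝ) ^ l * 2 ≤ S.card := by rw [← pow_succ]; exact_mod_cast hS
      have h4 : (0 : ℝ) < S.card := by exact_mod_cast hpos
      nlinarith
    obtain ⟨w, hw, hw'⟩ := this
    obtain ⟨c, h1, h2, h3⟩ := ih _ hw'
    refine ⟨w :: c, by simp [h1], List.pairwise_cons.mpr ⟨fun a ha => (mem_filter.mp (h3 a ha)).2, h2⟩,
      fun a ha => ?_⟩
    rcases List.mem_cons.mp ha with rfl | ha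
    · exact hw
    · exact (mem_filter.mp (h3 a ha)).1

theorem exists_pair {α : Type} [DecidableEq α] (a0 : α) (K : Finset α) (h : K.card ≤ 2) :
    ∃ a b, K ⊆ {a, b} := by
  rcases K.eq_empty_or_nonempty with rfl | ⟨a, ha⟩
  · exact ⟨a0, a0, empty_subset _⟩
  · have : Nonempty α := ⟨a0⟩
    obtain ⟨b, hb⟩ := card_le_one_iff_subset_singleton.mp
      (show (K.erase a).card ≤ 1 by rw [card_erase_of_mem ha]; omega)
    refine ⟨a, b, fun x hx => ?_⟩
    by_cases hxa : x = a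
    · simp [hxa]
    · have := hb (mem_erase.mpr ⟨hxa, hx⟩)
      simp [mem_singleton.mp this]

theorem cnt_nonneg {α : Type} [Fintype α] (P : α → Prop) : 0 ≤ cnt P := by
  rw [cnt_eq]; exact Nat.cast_nonneg _

theorem cnt_equiv {α : Type} [Fintype α] (P : α → Prop) (σ : α ≃ α) :
    cnt (fun a => P (σ a)) = cnt P :=
  Equiv.sum_comp σ (fun a => if P a then (1 : ℝ) else 0)

theorem cnt_le_sum {α κ : Type} [Fintype α] [Fintype κ] (P : α → Prop) (T : κ → α → Prop)
    (h : ∀ a, P a → ∃ k, T k a) : cnt P ≤ ∑ k, cnt (T k) := by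
  unfold cnt
  rw [sum_comm]
  refine sum_le_sum fun a _ => ?_
  split_ifs with hp
  · obtain ⟨k, hk⟩ := h a hp
    refine le_trans ?_ (single_le_sum (f := fun k => if T k a then (1 : ℝ) else 0)
      (fun _ _ => by split_ifs <;> norm_num) (mem_univ k))
    simp [hk]
  · exact sum_nonneg fun _ _ => by split_ifs <;> norm_num

/-- Change three coordinates. -/
def upd {h L : ℕ} (k1 k2 k3 : Fin h) (x : Fin h → Fin L) (p : Fin L × Fin L × Fin L) :
    Fin h → Fin L := fun j =>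
  if j = k1 then p.1 else if j = k2 then p.2.1 else if j = k3 then p.2.2 else x j

theorem cnt_upd {h L : ℕ} {k1 k2 k3 : Fin h} (h12 : k1 ≠ k2) (h13 : k1 ≠ k3) (h23 : k2 ≠ k3)
    (P : (Fin h → Fin L) → Prop) :
    ∑ x0, cnt (fun p => P (upd k1 k2 k3 x0 p)) = (L : ℝ) ^ 3 * cnt P := by
  let σ : (Fin h → Fin L) × (Fin L × Fin L × Fin L) → (Fin h → Fin L) × (Fin L × Fin L × Fin L) :=
    fun y => (upd k1 k2 k3 y.1 y.2, (y.1 k1, y.1 k2, y.1 k3))
  have hσ : Function.Involutive σ := by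
    rintro ⟨x, a, b, c⟩
    refine Prod.ext (funext fun j => ?_) ?_
    · simp only [σ, upd]
      split_ifs with e1 e2 e3
      · rw [e1]
      · rw [e2]
      · rw [e3]
      · rfl
    · simp [σ, upd, h12.symm, h13.symm, h23.symm]
  have e1 := cnt_prod' (fun y : (Fin h → Fin L) × (Fin L × Fin L × Fin L) =>
    P (upd k1 k2 k3 y.1 y.2))
  have e2 := cnt_equiv (fun y : (Fin h → Fin L) × (Fin L × Fin L × Fin L) => P y.1) hσ.toPerm
  have e3 := cnt_prod (fun y : (Fin h → Fin L) × (Fin L × Fin L × Fin L) => P y.1)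
  refine e1.trans (e2.trans (e3.symm.trans ?_))
  simp only [sum_const, card_univ, Fintype.card_prod, Fintype.card_fin, nsmul_eq_mul]
  push_cast
  ring

theorem defect (hs : ∀ a b, a ≠ b → r a b ∨ r b a) {C : ℕ} (hR : Rounds C) (h L J d m : ℕ)
    (e : Fin h × Fin L ↪ ι) (U : ι → V) (hU : IsCh r univ U) (hm : m ≤ Fintype.card ι + J)
    (hd : 2 * h ^ 4 ≤ 2 ^ d) (hL : 2 ^ (C * (d + (J + h) + 1)) ≤ L)
    (hgood : (L : ℝ) ^ h ≤ 2 * cnt (fun x : Fin h → Fin L => ∃ k, h ^ 2 * 2 ^ (J + 3) ≤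
      (slot r (univ \ univ.image fun j => e (j, x j)) U (e (k, x k))).card)) :
    HasCh r univ m := by
  by_contra hno
  have hL0 : 0 < L := lt_of_lt_of_le (by positivity) hL
  have hL0' : (0 : ℝ) < L := by exact_mod_cast hL0
  have slotlt : ∀ (I : Finset ι) (x : ι), x ∉ I → Fintype.card ι ≤ I.card + 3 →
      (slot r I U x).card < 2 ^ (J + 3) := by
    intro I x hx hI
    by_contra hcon
    exact hno ((slot_chain (hU.mono (subset_univ I)) hx
      (stearns hs _ _ (not_lt.mp hcon))).mono (by omega))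
  set R : (Fin h → Fin L) → Finset ι := fun x => univ.image fun j => e (j, x j) with hRdef
  have memR : ∀ x i, i ∈ R x ↔ ∃ j, e (j, x j) = i := fun x i => by simp [hRdef]
  let T : Fin h × Fin h × Fin h × Fin h → (Fin h → Fin L) → Prop := fun κ x =>
    (κ.2.1 ≠ κ.2.2.1 ∧ κ.2.1 ≠ κ.2.2.2 ∧ κ.2.2.1 ≠ κ.2.2.2) ∧
      ∃ w ∈ slot r (univ \ R x) U (e (κ.1, x κ.1)),
        ¬ Fit r U (e (κ.1, x κ.1)) (e (κ.2.1, x κ.2.1)) w ∧
        ¬ Fit r U (e (κ.1, x κ.1)) (e (κ.2.2.1, x κ.2.2.1)) w ∧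
        ¬ Fit r U (e (κ.1, x κ.1)) (e (κ.2.2.2, x κ.2.2.2)) w
  have hA : ∀ x : Fin h → Fin L, (∃ k, h ^ 2 * 2 ^ (J + 3) ≤
      (slot r (univ \ R x) U (e (k, x k))).card) → ∃ κ, T κ x := by
    rintro x ⟨k, hk⟩
    by_contra hcon
    have hsub : slot r (univ \ R x) U (e (k, x k)) ⊆ (univ : Finset (Fin h × Fin h)).biUnion
        fun p => slot r (univ \ {e (k, x k), e (p.1, x p.1), e (p.2, x p.2)}) U (e (k, x k)) := by
      intro w hw
      have hK : (univ.filter fun j => ¬ Fit r U (e (k, x k)) (e (j, x j)) w).card ≤ 2 := by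
        by_contra hc
        obtain ⟨a, b, c, ha, hb, hc', hab, hac, hbc⟩ := two_lt_card_iff.mp (not_le.mp hc)
        exact hcon ⟨(k, a, b, c), ⟨hab, hac, hbc⟩, w, hw, (mem_filter.mp ha).2,
          (mem_filter.mp hb).2, (mem_filter.mp hc').2⟩
      obtain ⟨a, b, hab⟩ := exists_pair k _ hK
      refine mem_biUnion.mpr ⟨(a, b), mem_univ _, mem_slot.mpr fun i hi => ?_⟩
      by_cases hiR : i ∈ R x
      · obtain ⟨j, rfl⟩ := (memR x i).mp hiR
        by_contra hf
        have := hab (mem_filter.mpr ⟨mem_univ j, hf⟩)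
        rw [mem_insert, mem_singleton] at this
        rcases this with rfl | rfl <;> simp at hi
      · exact mem_slot.mp hw i (mem_sdiff.mpr ⟨mem_univ _, hiR⟩)
    have h1 := (card_le_card hsub).trans card_biUnion_le
    have h2 := h1.trans (sum_le_card_nsmul _ _ (2 ^ (J + 3) - 1) fun p _ => by
      have := slotlt (univ \ {e (k, x k), e (p.1, x p.1), e (p.2, x p.2)}) (e (k, x k)) (by simp) (by
        have h3 : ({e (k, x k), e (p.1, x p.1), e (p.2, x p.2)} : Finset ι).card ≤ 3 := card_le_three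
        have h4 := le_card_sdiff ({e (k, x k), e (p.1, x p.1), e (p.2, x p.2)} : Finset ι) univ
        rw [card_univ] at h4
        omega)
      omega)
    rw [card_univ, Fintype.card_prod, Fintype.card_fin, smul_eq_mul, ← sq] at h2
    have h5 : 0 < h ^ 2 := pow_pos k.pos 2
    have h6 : h ^ 2 * (2 ^ (J + 3) - 1) < h ^ 2 * 2 ^ (J + 3) :=
      Nat.mul_lt_mul_of_pos_left (Nat.sub_lt (by positivity) one_pos) h5
    omega
  have hB := hgood.trans (mul_le_mul_of_nonneg_left (cnt_le_sum _ T hA) zero_le_two)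
  have hh : Nonempty (Fin h × Fin h × Fin h × Fin h) := by
    by_contra hc
    rw [not_nonempty_iff] at hc
    rw [Fintype.sum_empty] at hB
    have := pow_pos hL0' h
    linarith
  have hx0 : Nonempty (Fin h → Fin L) := ⟨fun _ => ⟨0, hL0⟩⟩
  have hC : ∀ κ, (L : ℝ) ^ 3 * cnt (T κ) ≤
      ∑ x0, cnt (fun p => T κ (upd κ.2.1 κ.2.2.1 κ.2.2.2 x0 p)) := by
    intro κ
    by_cases hκ : κ.2.1 ≠ κ.2.2.1 ∧ κ.2.1 ≠ κ.2.2.2 ∧ κ.2.2.1 ≠ κ.2.2.2
    · exact (cnt_upd hκ.1 hκ.2.1 hκ.2.2 (T κ)).ge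
    · have : cnt (T κ) = 0 := sum_eq_zero fun x _ => if_neg fun hT => hκ hT.1
      rw [this, mul_zero]
      exact sum_nonneg fun _ _ => cnt_nonneg _
  obtain ⟨⟨⟨k0, k1, k2, k3⟩, x0⟩, -, hy⟩ := exists_le_of_sum_le
    (s := (univ : Finset ((Fin h × Fin h × Fin h × Fin h) × (Fin h → Fin L)))) univ_nonempty
    (f := fun _ => (L : ℝ) ^ 3)
    (g := fun y => 2 * (h : ℝ) ^ 4 * cnt (fun p => T y.1 (upd y.1.2.1 y.1.2.2.1 y.1.2.2.2 y.2 p)))
    (by
      rw [← mul_sum, Fintype.sum_prod_type (f := fun y :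
        (Fin h × Fin h × Fin h × Fin h) × (Fin h → Fin L) =>
          cnt (fun p => T y.1 (upd y.1.2.1 y.1.2.2.1 y.1.2.2.2 y.2 p)))]
      have h1 := sum_le_sum (s := univ) fun κ _ => hC κ
      rw [← mul_sum] at h1
      simp only [sum_const, card_univ, Fintype.card_prod, Fintype.card_fin, Fintype.card_fun,
        nsmul_eq_mul]
      push_cast
      have h2 : (0 : ℝ) ≤ (h : ℝ) ^ 4 := by positivity
      have h3 : (0 : ℝ) ≤ (L : ℝ) ^ 3 := by positivity
      nlinarith [mul_le_mul_of_nonneg_left h1 h2, mul_le_mul_of_nonneg_left hB (mul_nonneg h2 h3)])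
  set S := univ.filter fun p => T (k0, k1, k2, k3) (upd k1 k2 k3 x0 p) with hS
  have hSc : L ^ 3 ≤ 2 ^ d * S.card := by
    have h1 : (L : ℝ) ^ 3 ≤ 2 * (h : ℝ) ^ 4 * S.card := by rw [hS, ← cnt_eq]; exact hy
    have h2 : L ^ 3 ≤ 2 * h ^ 4 * S.card := by exact_mod_cast h1
    exact h2.trans (Nat.mul_le_mul_right _ hd)
  have hSne : S.Nonempty := by
    rw [← card_pos]
    by_contra hc
    have : S.card = 0 := by omega
    rw [this] at hSc
    have := pow_pos hL0 3
    omega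
  obtain ⟨p0, hp0⟩ := hSne
  obtain ⟨⟨h12, h13, h23⟩, w0, -, hw0⟩ := (mem_filter.mp hp0).2
  have triv : ∀ i w, Fit r U i i w := fun i w => ⟨fun k => absurd k (lt_irrefl _),
    fun k => absurd k (lt_irrefl _)⟩
  have h01 : k0 ≠ k1 := by rintro rfl; exact hw0.1 (triv _ _)
  have h02 : k0 ≠ k2 := by rintro rfl; exact hw0.2.1 (triv _ _)
  have h03 : k0 ≠ k3 := by rintro rfl; exact hw0.2.2 (triv _ _)
  have u0 : ∀ p, upd k1 k2 k3 x0 p k0 = x0 k0 := fun p => by simp [upd, h01, h02, h03]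
  have u1 : ∀ p, upd k1 k2 k3 x0 p k1 = p.1 := fun p => by simp [upd]
  have u2 : ∀ p, upd k1 k2 k3 x0 p k2 = p.2.1 := fun p => by
    simp [upd, (show k2 ≠ k1 from h12.symm)]
  have u3 : ∀ p, upd k1 k2 k3 x0 p k3 = p.2.2 := fun p => by
    simp [upd, (show k3 ≠ k1 from h13.symm), (show k3 ≠ k2 from h23.symm)]
  have hw : ∀ p, ∃ w : V, p ∈ S → w ∈ slot r (univ \ R (upd k1 k2 k3 x0 p)) U (e (k0, x0 k0)) ∧
      ¬ Fit r U (e (k0, x0 k0)) (e (k1, p.1)) w ∧ ¬ Fit r U (e (k0, x0 k0)) (e (k2, p.2.1)) w ∧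
      ¬ Fit r U (e (k0, x0 k0)) (e (k3, p.2.2)) w := by
    intro p
    by_cases hp : p ∈ S
    · obtain ⟨-, w, hw1, hw2⟩ := (mem_filter.mp hp).2
      simp only [u0, u1, u2, u3] at hw1 hw2
      exact ⟨w, fun _ => ⟨hw1, hw2⟩⟩
    · exact ⟨w0, fun k => absurd k hp⟩
  choose w hw using hw
  have key : ∀ q ∈ S, ∀ k a, ¬ Fit r U (e (k0, x0 k0)) (e (k, a)) (w q) →
      upd k1 k2 k3 x0 q k = a := by
    intro q hq k a hf
    by_contra hne
    refine hf (mem_slot.mp (hw q hq).1 _ (mem_sdiff.mpr ⟨mem_univ _, fun hm' => ?_⟩))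
    obtain ⟨j, hj⟩ := (memR _ _).mp hm'
    have := e.injective hj
    rw [Prod.mk.injEq] at this
    obtain ⟨rfl, h2⟩ := this
    exact hne h2
  obtain ⟨l, A, B, D, hl1, hl2, hl3⟩ := hR (J + h) d L S (fun p q => r (w p) (w q))
    (fun p hp q hq hne => hs _ _ fun heq => hne (by
      have a1 := key q hq _ _ (heq ▸ (hw p hp).2.1)
      have a2 := key q hq _ _ (heq ▸ (hw p hp).2.2.1)
      have a3 := key q hq _ _ (heq ▸ (hw p hp).2.2.2)
      rw [u1] at a1; rw [u2] at a2; rw [u3] at a3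
      exact Prod.ext a1.symm (Prod.ext a2.symm a3.symm))) hL hSc
  set Z : Finset ι := R x0 ∪ (A.image fun a => e (k1, a)) ∪ (B.image fun a => e (k2, a)) ∪
    (D.image fun a => e (k3, a)) with hZ
  have hZc : Z.card ≤ h + A.card + B.card + D.card := by
    have a0 : (R x0).card ≤ h := card_image_le.trans (by simp)
    have a1 : (A.image fun a => e (k1, a)).card ≤ A.card := card_image_le
    have a2 : (B.image fun a => e (k2, a)).card ≤ B.card := card_image_le
    have a3 : (D.image fun a => e (k3, a)).card ≤ D.card := card_image_le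
    have b1 := card_union_le (R x0) (A.image fun a => e (k1, a))
    have b2 := card_union_le (R x0 ∪ (A.image fun a => e (k1, a))) (B.image fun a => e (k2, a))
    have b3 := card_union_le (R x0 ∪ (A.image fun a => e (k1, a)) ∪ (B.image fun a => e (k2, a)))
      (D.image fun a => e (k3, a))
    rw [hZ]
    omega
  have hch : HasCh r (slot r (univ \ Z) U (e (k0, x0 k0))) l.length := by
    refine ⟨l.map w, by simp, List.pairwise_map.mpr hl1, fun a ha => ?_⟩
    obtain ⟨p, hp, rfl⟩ := List.mem_map.mp ha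
    obtain ⟨hpS, hpA, hpB, hpD⟩ := hl2 p hp
    refine mem_slot.mpr fun i hi => mem_slot.mp (hw p hpS).1 i
      (mem_sdiff.mpr ⟨mem_univ _, fun hm' => (mem_sdiff.mp hi).2 ?_⟩)
    obtain ⟨j, rfl⟩ := (memR _ _).mp hm'
    simp only [hZ, mem_union, mem_image]
    unfold upd
    split_ifs with e1 e2 e3
    · exact Or.inl (Or.inl (Or.inr ⟨_, hpA, by rw [e1]⟩))
    · exact Or.inl (Or.inr ⟨_, hpB, by rw [e2]⟩)
    · exact Or.inr ⟨_, hpD, by rw [e3]⟩
    · exact Or.inl (Or.inl (Or.inl ((memR _ _).mpr ⟨j, rfl⟩)))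
  have hx : e (k0, x0 k0) ∉ univ \ Z := fun hm' => (mem_sdiff.mp hm').2 (by
    simp only [hZ, mem_union]
    exact Or.inl (Or.inl (Or.inl ((memR _ _).mpr ⟨k0, rfl⟩))))
  refine hno ((slot_chain (hU.mono (subset_univ _)) hx hch).mono ?_)
  have h4 := le_card_sdiff Z univ
  rw [card_univ] at h4
  omega

end Pool.Agent.Work.MP_e10cd8_co.Tn
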