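import Mathlib

/-! Forcing sizes for independent sets and chains. -/

namespace Pool.Agent.Work.MP_e10cd8_co.Tn

/-- Every loopless relation on at least `N` points has `n` independent points or a chain of
length `m`. -/
def Forces (n m N : ℕ) : Prop :=
  ∀ (V : Type) [Fintype V] (r : V → V → Prop), (∀ v, ¬ r v v) → N ≤ Fintype.card V →
    (∃ S : Finset V, S.card = n ∧ ∀ u ∈ S, ∀ v ∈ S, ¬ r u v) ∨
      ∃ l : List V, l.length = m ∧ l.Pairwise r

end Pool.Agent.Work.MP_e10cd8_co.Tn
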