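import Pool.Agent.Work.MP_e10cd8_co.Tn.Defs

/-! From `n = 2` to every fixed `n`. -/

namespace Pool.Agent.Work.MP_e10cd8_co.Tn

open Classical

theorem Forces.mono {n m N N' : ℕ} (h : Forces n m N) (hN : N ≤ N') : Forces n m N' :=
  fun V _ r hr hc => h V r hr (hN.trans hc)

theorem Forces.sub {n m N : ℕ} (h : Forces n m N) {V : Type} [Fintype V] (r : V → V → Prop)
    (hr : ∀ v, ¬ r v v) (p : V → Prop) [DecidablePred p] (hc : N ≤ (Finset.univ.filter p).card) :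
    (∃ S : Finset V, S.card = n ∧ (∀ u ∈ S, p u) ∧ ∀ u ∈ S, ∀ v ∈ S, ¬ r u v) ∨
      ∃ l : List V, l.length = m ∧ (∀ u ∈ l, p u) ∧ l.Pairwise r := by
  rcases h {v // p v} (fun a b => r a.1 b.1) (fun v => hr v.1)
    (by rw [Fintype.card_subtype]; exact hc) with ⟨S, hS, hi⟩ | ⟨l, hl, hp⟩
  · refine Or.inl ⟨S.map (Function.Embedding.subtype p), by simpa using hS, ?_, ?_⟩
    · intro u hu
      obtain ⟨a, _, rfl⟩ := Finset.mem_map.1 hu
      exact a.2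
    · intro u hu v hv
      obtain ⟨a, ha, rfl⟩ := Finset.mem_map.1 hu
      obtain ⟨b, hb, rfl⟩ := Finset.mem_map.1 hv
      exact hi a ha b hb
  · refine Or.inr ⟨l.map Subtype.val, by simpa using hl, ?_, List.pairwise_map.2 hp⟩
    intro u hu
    obtain ⟨a, _, rfl⟩ := List.mem_map.1 hu
    exact a.2

theorem forces_zero_right (n : ℕ) : Forces n 0 0 :=
  fun _ _ _ _ _ => Or.inr ⟨[], rfl, List.Pairwise.nil⟩

theorem forces_zero_left (m : ℕ) : Forces 0 m 0 :=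
  fun _ _ _ _ _ => Or.inl ⟨∅, rfl, by simp⟩

theorem Forces.step {n m A B : ℕ} (h1 : Forces n (m + 1) A) (h2 : Forces (n + 1) m B) :
    Forces (n + 1) (m + 1) (A + 2 * B + 1) := by
  intro V _ r hr hc
  obtain ⟨v⟩ : Nonempty V := Fintype.card_pos_iff.1 (by omega)
  by_cases hZ : A ≤ (Finset.univ.filter fun w => w ≠ v ∧ ¬ r v w ∧ ¬ r w v).card
  · rcases h1.sub r hr _ hZ with ⟨S, hS, hp, hi⟩ | ⟨l, hl, -, hp⟩
    · have hv : v ∉ S := fun h => (hp v h).1 rfl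
      refine Or.inl ⟨insert v S, by rw [Finset.card_insert_of_notMem hv, hS], ?_⟩
      intro a ha b hb
      rcases Finset.mem_insert.1 ha with rfl | ha' <;> rcases Finset.mem_insert.1 hb with rfl | hb'
      · exact hr _
      · exact (hp b hb').2.1
      · exact (hp a ha').2.2
      · exact hi a ha' b hb'
    · exact Or.inr ⟨l, hl, hp⟩
  by_cases hO : B ≤ (Finset.univ.filter fun w => r v w).card
  · rcases h2.sub r hr _ hO with ⟨S, hS, -, hi⟩ | ⟨l, hl, hq, hp⟩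
    · exact Or.inl ⟨S, hS, hi⟩
    · exact Or.inr ⟨v :: l, by simp [hl], List.pairwise_cons.2 ⟨hq, hp⟩⟩
  by_cases hI : B ≤ (Finset.univ.filter fun w => r w v).card
  · rcases h2.sub r hr _ hI with ⟨S, hS, -, hi⟩ | ⟨l, hl, hq, hp⟩
    · exact Or.inl ⟨S, hS, hi⟩
    · refine Or.inr ⟨l ++ [v], by simp [hl], List.pairwise_append.2 ⟨hp, by simp, ?_⟩⟩
      intro a ha b hb
      rw [List.mem_singleton.1 hb]
      exact hq a ha
  exfalso
  have hsub : (Finset.univ : Finset V) ⊆ insert v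
      (((Finset.univ.filter fun w => w ≠ v ∧ ¬ r v w ∧ ¬ r w v) ∪
        Finset.univ.filter fun w => r v w) ∪ Finset.univ.filter fun w => r w v) := by
    intro w _
    simp only [Finset.mem_insert, Finset.mem_union, Finset.mem_filter, Finset.mem_univ, true_and]
    tauto
  have h3 := (Finset.card_le_card hsub).trans ((Finset.card_insert_le _ _).trans
    (Nat.add_le_add_right ((Finset.card_union_le _ _).trans
      (Nat.add_le_add_right (Finset.card_union_le _ _) _)) 1))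
  rw [Finset.card_univ] at h3
  omega

theorem forces_exists (n m : ℕ) : ∃ N, Forces n m N := by
  induction n generalizing m with
  | zero => exact ⟨0, forces_zero_left m⟩
  | succ n ih =>
    induction m with
    | zero => exact ⟨0, forces_zero_right _⟩
    | succ m ihm =>
      obtain ⟨A, hA⟩ := ih (m + 1)
      obtain ⟨B, hB⟩ := ihm
      exact ⟨_, hA.step hB⟩

/-- The least forcing size. -/
noncomputable def kk (n m : ℕ) : ℕ := Nat.find (forces_exists n m)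

theorem kk_spec (n m : ℕ) : Forces n m (kk n m) := Nat.find_spec (forces_exists n m)

theorem kk_le {n m N : ℕ} (h : Forces n m N) : kk n m ≤ N := Nat.find_min' _ h

theorem kk_zero (n : ℕ) : kk n 0 = 0 := Nat.le_zero.1 (kk_le (forces_zero_right n))

theorem kk_step (n m : ℕ) : kk (n + 1) (m + 1) ≤ kk n (m + 1) + 2 * kk (n + 1) m + 1 :=
  kk_le ((kk_spec n (m + 1)).step (kk_spec (n + 1) m))

/-- Summation of the recurrence against any comparison sequence. -/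
theorem kk_sum (n : ℕ) (a b : ℕ → ℝ) (ha : ∀ m, (kk n (m + 1) : ℝ) ≤ a (m + 1) * 2 ^ (m + 1))
    (hb0 : 0 ≤ b 0) (hb : ∀ m, b m + a (m + 1) ≤ b (m + 1)) (m : ℕ) :
    (kk (n + 1) m : ℝ) + 1 ≤ (b m + 1) * 2 ^ m := by
  induction m with
  | zero => simp [kk_zero, hb0]
  | succ m ih =>
    have h1 : (kk (n + 1) (m + 1) : ℝ) ≤ kk n (m + 1) + 2 * kk (n + 1) m + 1 := by
      exact_mod_cast kk_step n m
    have h2 := ha m
    have h3 : (b m + a (m + 1)) * 2 ^ (m + 1) ≤ b (m + 1) * 2 ^ (m + 1) :=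
      mul_le_mul_of_nonneg_right (hb m) (by positivity)
    rw [pow_succ] at h2 h3 ⊢
    nlinarith

theorem Forces.final {n m N : ℕ} (h : Forces n m N) (G : Digraph (Fin N))
    (hG : ∀ v, ¬ G.Adj v v) :
    (∃ S : Finset (Fin N), S.card = n ∧ ∀ u ∈ S, ∀ v ∈ S, ¬ G.Adj u v) ∨
      ∃ f : Fin m → Fin N, Function.Injective f ∧ ∀ i j, i < j → G.Adj (f i) (f j) := by
  rcases h (Fin N) G.Adj hG (by simp) with h | ⟨l, hl, hp⟩
  · exact Or.inl h
  · subst hl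
    have key : ∀ i j : Fin l.length, i < j → G.Adj (l.get i) (l.get j) :=
      List.pairwise_iff_get.1 hp
    refine Or.inr ⟨l.get, fun i j hij => ?_, key⟩
    rcases lt_trichotomy i j with h | h | h
    · exact absurd (hij ▸ key i j h) (hG _)
    · exact h
    · exact absurd (hij ▸ key j i h) (hG _)

theorem kk_small
    (h2 : ∀ ε : ℝ, 0 < ε → ∃ M : ℕ, ∀ m N : ℕ, M ≤ m → ε * 2 ^ m ≤ N → Forces 2 m N) (n : ℕ) :
    ∀ ε : ℝ, 0 < ε → ∃ M : ℕ, ∀ m : ℕ, M ≤ m → (kk (n + 2) m : ℝ) ≤ ε * (m : ℝ) ^ n * 2 ^ m := by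
  induction n with
  | zero =>
    intro ε hε
    obtain ⟨M, hM⟩ := h2 (ε / 2) (by positivity)
    obtain ⟨M', hM'⟩ := exists_nat_ge (2 / ε)
    refine ⟨max M M', fun m hm => ?_⟩
    have h1 : kk 2 m ≤ ⌈ε / 2 * 2 ^ m⌉₊ :=
      kk_le (hM m _ (le_of_max_le_left hm) (Nat.le_ceil _))
    have h3 : (⌈ε / 2 * 2 ^ m⌉₊ : ℝ) < ε / 2 * 2 ^ m + 1 := Nat.ceil_lt_add_one (by positivity)
    have h4 : (kk 2 m : ℝ) ≤ ⌈ε / 2 * 2 ^ m⌉₊ := by exact_mod_cast h1
    have h5 : (M' : ℝ) ≤ 2 ^ m := by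
      have : M' ≤ 2 ^ m := (le_of_max_le_right hm).trans Nat.lt_two_pow_self.le
      exact_mod_cast this
    have h6 : 2 ≤ ε * 2 ^ m := by
      have := hM'.trans h5
      rw [div_le_iff₀ hε] at this
      linarith
    simp only [pow_zero, mul_one, zero_add]
    linarith
  | succ n ih =>
    intro ε hε
    obtain ⟨M, hM⟩ := ih (ε / 2) (by positivity)
    set C : ℝ := ∑ j ∈ Finset.range M, (kk (n + 2) j : ℝ) with hC
    have hC0 : 0 ≤ C := Finset.sum_nonneg fun _ _ => Nat.cast_nonneg _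
    have key := kk_sum (n + 2) (fun j => ε / 2 * (j : ℝ) ^ n + if j < M then C else 0)
      (fun j => ε / 2 * (j : ℝ) ^ (n + 1) + C * (min j M : ℕ)) (fun m => ?_) (by simp) (fun m => ?_)
    · obtain ⟨M', hM'⟩ := exists_nat_ge ((C * M + 1) / (ε / 2))
      refine ⟨max 1 M', fun m hm => ?_⟩
      have h1 := key m
      have hm1 : (1 : ℝ) ≤ m := by exact_mod_cast le_of_max_le_left hm
      have hm2 : (M' : ℝ) ≤ m := by exact_mod_cast le_of_max_le_right hm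
      have h3 : (m : ℝ) ≤ (m : ℝ) ^ (n + 1) := le_self_pow₀ hm1 (by omega)
      have h4 : C * M + 1 ≤ ε / 2 * (m : ℝ) ^ (n + 1) := by
        have := (hM'.trans hm2).trans h3
        rw [div_le_iff₀ (by positivity)] at this
        linarith
      have h5 : C * ((min m M : ℕ) : ℝ) ≤ C * M :=
        mul_le_mul_of_nonneg_left (by exact_mod_cast min_le_right m M) hC0
      have h6 : (ε / 2 * (m : ℝ) ^ (n + 1) + C * ((min m M : ℕ) : ℝ) + 1) * 2 ^ m ≤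
          ε * (m : ℝ) ^ (n + 1) * 2 ^ m := mul_le_mul_of_nonneg_right (by linarith) (by positivity)
      have h7 : n + 1 + 2 = n + 2 + 1 := by omega
      rw [h7]
      linarith
    · split_ifs with h
      · have h1 : (kk (n + 2) (m + 1) : ℝ) ≤ C :=
          Finset.single_le_sum (f := fun j => (kk (n + 2) j : ℝ)) (fun _ _ => Nat.cast_nonneg _)
            (Finset.mem_range.2 h)
        have h3 : (1 : ℝ) ≤ 2 ^ (m + 1) := one_le_pow₀ (by norm_num)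
        have h4 : 0 ≤ ε / 2 * ((m + 1 : ℕ) : ℝ) ^ n := by positivity
        nlinarith
      · simpa using hM (m + 1) (not_lt.1 h)
    · have h1 : (m : ℝ) ^ (n + 1) + ((m + 1 : ℕ) : ℝ) ^ n ≤ ((m + 1 : ℕ) : ℝ) ^ (n + 1) := by
        have h3 : (m : ℝ) ^ n ≤ ((m + 1 : ℕ) : ℝ) ^ n :=
          pow_le_pow_left₀ (Nat.cast_nonneg _) (by push_cast; linarith) n
        have h4 : (m : ℝ) ^ n * m ≤ ((m + 1 : ℕ) : ℝ) ^ n * m :=
          mul_le_mul_of_nonneg_right h3 (Nat.cast_nonneg _)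
        rw [pow_succ, pow_succ]
        push_cast at h4 ⊢
        linarith
      have h3 : C * ((min m M : ℕ) : ℝ) + (if m + 1 < M then C else 0) ≤
          C * ((min (m + 1) M : ℕ) : ℝ) := by
        split_ifs with h
        · rw [min_eq_left (by omega), min_eq_left h.le]
          push_cast
          linarith
        · rw [add_zero]
          exact mul_le_mul_of_nonneg_left (by exact_mod_cast min_le_min_right M (Nat.le_succ m)) hC0
      have h4 := mul_le_mul_of_nonneg_left h1 (by positivity : 0 ≤ ε / 2)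
      show ε / 2 * (m : ℝ) ^ (n + 1) + C * ((min m M : ℕ) : ℝ) +
        (ε / 2 * ((m + 1 : ℕ) : ℝ) ^ n + if m + 1 < M then C else 0) ≤
        ε / 2 * ((m + 1 : ℕ) : ℝ) ^ (n + 1) + C * ((min (m + 1) M : ℕ) : ℝ)
      linarith

theorem fixedN
    (h2 : ∀ ε : ℝ, 0 < ε → ∃ M : ℕ, ∀ m N : ℕ, M ≤ m → ε * 2 ^ m ≤ N → Forces 2 m N) :
    ∀ n : ℕ, 2 ≤ n → ∀ ε : ℝ, 0 < ε → ∃ M : ℕ, ∀ m N : ℕ, M ≤ m →
      ε * ((m : ℝ) ^ (n - 2) * 2 ^ m) ≤ N →
      ∀ G : Digraph (Fin N), (∀ v, ¬ G.Adj v v) →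
        (∃ S : Finset (Fin N), S.card = n ∧ ∀ u ∈ S, ∀ v ∈ S, ¬ G.Adj u v) ∨
          ∃ f : Fin m → Fin N, Function.Injective f ∧ ∀ i j, i < j → G.Adj (f i) (f j) := by
  intro n hn ε hε
  obtain ⟨k, rfl⟩ : ∃ k, n = k + 2 := ⟨n - 2, by omega⟩
  obtain ⟨M, hM⟩ := kk_small h2 k ε hε
  refine ⟨M, fun m N hm hN G hG => ?_⟩
  have h1 : (kk (k + 2) m : ℝ) ≤ N := by
    have := hM m hm
    rw [Nat.add_sub_cancel] at hN
    linarith [mul_assoc ε ((m : ℝ) ^ k) (2 ^ m)]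
  exact ((kk_spec (k + 2) m).mono (by exact_mod_cast h1)).final G hG

theorem rpow_step {a : ℝ} (ha : 1 / 2 ≤ a) (m : ℕ) :
    (m : ℝ) ^ a + ((m + 1 : ℕ) : ℝ) ^ (a - 1) / 2 ≤ ((m + 1 : ℕ) : ℝ) ^ a := by
  have hy : (0 : ℝ) < ((m + 1 : ℕ) : ℝ) := by positivity
  set y : ℝ := ((m + 1 : ℕ) : ℝ) with hyd
  have hm : (m : ℝ) = y - 1 := by rw [hyd]; push_cast; ring
  have hy1 : 1 ≤ y := by rw [hyd]; push_cast; linarith [Nat.cast_nonneg (α := ℝ) m]
  have hx0 : 0 ≤ 1 - 1 / y := by rw [sub_nonneg, div_le_one hy]; exact hy1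
  have hx1 : 1 - 1 / y ≤ 1 := by linarith [one_div_pos.2 hy]
  have h1 : (1 - 1 / y) ^ a ≤ (1 - 1 / y) ^ (1 / 2 : ℝ) :=
    Real.rpow_le_rpow_of_exponent_ge' hx0 hx1 (by norm_num) ha
  have h2 : (1 - 1 / y) ^ (1 / 2 : ℝ) ≤ 1 - 1 / y / 2 := by
    rw [← Real.sqrt_eq_rpow]
    refine Real.sqrt_le_iff.2 ⟨by linarith [one_div_pos.2 hy], by nlinarith [sq_nonneg (1 / y)]⟩
  have h3 : (m : ℝ) ^ a = y ^ a * (1 - 1 / y) ^ a := by
    rw [← Real.mul_rpow hy.le hx0, hm]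
    congr 1
    field_simp
  have h4 : y ^ (a - 1) = y ^ a * (1 / y) := by
    rw [Real.rpow_sub_one hy.ne']
    ring
  have h5 := mul_le_mul_of_nonneg_left (h1.trans h2) (Real.rpow_nonneg hy.le a)
  rw [h3, h4]
  linarith

theorem kk_poly {c : ℝ} (hc : c ≤ 1 / 2)
    (h2 : ∃ C : ℝ, ∀ m : ℕ, 1 ≤ m → (kk 2 m : ℝ) ≤ C * (m : ℝ) ^ (-c) * 2 ^ m) (n : ℕ) :
    ∃ C : ℝ, ∀ m : ℕ, 1 ≤ m → (kk (n + 2) m : ℝ) ≤ C * (m : ℝ) ^ ((n : ℝ) - c) * 2 ^ m := by
  induction n with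
  | zero => simpa using h2
  | succ n ih =>
    obtain ⟨C, hC⟩ := ih
    have ha : (1 : ℝ) / 2 ≤ ((n + 1 : ℕ) : ℝ) - c := by
      push_cast
      linarith [Nat.cast_nonneg (α := ℝ) n]
    have key := kk_sum (n + 2) (fun j => |C| * (j : ℝ) ^ ((n : ℝ) - c))
      (fun j => 2 * |C| * (j : ℝ) ^ (((n + 1 : ℕ) : ℝ) - c)) (fun m => ?_) (by positivity)
      (fun m => ?_)
    · refine ⟨2 * |C| + 1, fun m hm => ?_⟩
      have h1 := key m
      have hm1 : (1 : ℝ) ≤ m := by exact_mod_cast hm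
      have h3 : (1 : ℝ) ≤ (m : ℝ) ^ (((n + 1 : ℕ) : ℝ) - c) := Real.one_le_rpow hm1 (by linarith)
      have h6 : (2 * |C| * (m : ℝ) ^ (((n + 1 : ℕ) : ℝ) - c) + 1) * 2 ^ m ≤
          (2 * |C| + 1) * (m : ℝ) ^ (((n + 1 : ℕ) : ℝ) - c) * 2 ^ m :=
        mul_le_mul_of_nonneg_right (by linarith) (by positivity)
      have h7 : n + 1 + 2 = n + 2 + 1 := by omega
      rw [h7]
      linarith
    · refine (hC (m + 1) (by omega)).trans ?_
      exact mul_le_mul_of_nonneg_right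
        (mul_le_mul_of_nonneg_right (le_abs_self C) (by positivity)) (by positivity)
    · have h1 := rpow_step ha m
      have h3 : ((n + 1 : ℕ) : ℝ) - c - 1 = (n : ℝ) - c := by push_cast; ring
      rw [h3] at h1
      have h4 := mul_le_mul_of_nonneg_left h1 (by positivity : 0 ≤ 2 * |C|)
      show 2 * |C| * (m : ℝ) ^ (((n + 1 : ℕ) : ℝ) - c) + |C| * ((m + 1 : ℕ) : ℝ) ^ ((n : ℝ) - c) ≤
        2 * |C| * ((m + 1 : ℕ) : ℝ) ^ (((n + 1 : ℕ) : ℝ) - c)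
      linarith

/-- Polynomial rate: from `n = 2` to every fixed `n`, with one exponent `c`. -/
theorem fixedN_poly
    (h2 : ∃ c : ℝ, 0 < c ∧ ∃ C : ℝ, ∀ m N : ℕ, 1 ≤ m → C * (m : ℝ) ^ (-c) * 2 ^ m ≤ N →
      Forces 2 m N) :
    ∃ c : ℝ, 0 < c ∧ ∀ n : ℕ, 2 ≤ n → ∃ C : ℝ, ∀ m N : ℕ, 1 ≤ m →
      C * (m : ℝ) ^ ((n : ℝ) - 2 - c) * 2 ^ m ≤ N →
      ∀ G : Digraph (Fin N), (∀ v, ¬ G.Adj v v) →
        (∃ S : Finset (Fin N), S.card = n ∧ ∀ u ∈ S, ∀ v ∈ S, ¬ G.Adj u v) ∨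
          ∃ f : Fin m → Fin N, Function.Injective f ∧ ∀ i j, i < j → G.Adj (f i) (f j) := by
  obtain ⟨c, hc, C, hC⟩ := h2
  refine ⟨min c (1 / 2), by positivity, fun n hn => ?_⟩
  obtain ⟨k, rfl⟩ : ∃ k, n = k + 2 := ⟨n - 2, by omega⟩
  have hb : ∀ m : ℕ, 1 ≤ m →
      (kk 2 m : ℝ) ≤ (|C| + 2) * (m : ℝ) ^ (-min c (1 / 2)) * 2 ^ m := by
    intro m hm
    have hm1 : (1 : ℝ) ≤ m := by exact_mod_cast hm
    have h0 : C * (m : ℝ) ^ (-c) * 2 ^ m ≤ |C| * (m : ℝ) ^ (-min c (1 / 2)) * 2 ^ m := by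
      refine mul_le_mul_of_nonneg_right ?_ (by positivity)
      exact mul_le_mul (le_abs_self C)
        (Real.rpow_le_rpow_of_exponent_le hm1 (neg_le_neg (min_le_left _ _))) (by positivity)
        (abs_nonneg C)
    have h1 : kk 2 m ≤ ⌈|C| * (m : ℝ) ^ (-min c (1 / 2)) * 2 ^ m⌉₊ :=
      kk_le (hC m _ hm (h0.trans (Nat.le_ceil _)))
    have h3 := Nat.ceil_lt_add_one
      (by positivity : 0 ≤ |C| * (m : ℝ) ^ (-min c (1 / 2)) * 2 ^ m)
    have h4 : (kk 2 m : ℝ) ≤ ⌈|C| * (m : ℝ) ^ (-min c (1 / 2)) * 2 ^ m⌉₊ := by exact_mod_cast h1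
    have h5 : (m : ℝ) ^ (-1 : ℝ) ≤ (m : ℝ) ^ (-min c (1 / 2)) :=
      Real.rpow_le_rpow_of_exponent_le hm1 (by linarith [min_le_right c (1 / 2)])
    have h6 : (m : ℝ) ≤ 2 ^ m := by exact_mod_cast Nat.lt_two_pow_self.le
    have h7 : 1 ≤ (m : ℝ) ^ (-min c (1 / 2)) * 2 ^ m := by
      calc (1 : ℝ) = (m : ℝ) ^ (-1 : ℝ) * m := by
            rw [Real.rpow_neg_one]; field_simp
        _ ≤ _ := mul_le_mul h5 h6 (by positivity) (by positivity)
    nlinarith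
  obtain ⟨D, hD⟩ := kk_poly (min_le_right c (1 / 2)) ⟨|C| + 2, hb⟩ k
  refine ⟨D, fun m N hm hN G hG => ?_⟩
  have h0 : ((k + 2 : ℕ) : ℝ) - 2 - min c (1 / 2) = (k : ℝ) - min c (1 / 2) := by
    push_cast; ring
  rw [h0] at hN
  have h1 : (kk (k + 2) m : ℝ) ≤ N := (hD m hm).trans hN
  exact ((kk_spec (k + 2) m).mono (by exact_mod_cast h1)).final G hG

end Pool.Agent.Work.MP_e10cd8_co.Tn
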