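import Pool.Agent.Work.MP_e10cd8_co.Tn.FixN

/-! From the dyadic form of the tournament bound to the polynomial rate for every fixed `n`. -/

namespace Pool.Agent.Work.MP_e10cd8_co.Tn

theorem poly_of_dyadic
    (h : ∃ C : ℕ, ∀ k m : ℕ, 2 ^ (C * (k + 1)) ≤ m → Forces 2 m (2 ^ (m - k))) :
    ∃ c : ℝ, 0 < c ∧ ∃ C : ℝ, ∀ m N : ℕ, 1 ≤ m → C * (m : ℝ) ^ (-c) * 2 ^ m ≤ N →
      Forces 2 m N := by
  obtain ⟨C0, h0⟩ := h
  set C := C0 + 1 with hCd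
  have hC : ∀ k m : ℕ, 2 ^ (C * (k + 1)) ≤ m → Forces 2 m (2 ^ (m - k)) := fun k m hm =>
    h0 k m ((Nat.pow_le_pow_right (by norm_num)
      (Nat.mul_le_mul_right _ (Nat.le_succ C0))).trans hm)
  have hC1 : (1 : ℝ) ≤ C := by exact_mod_cast Nat.succ_le_succ (Nat.zero_le C0)
  have hCp : 0 < C := Nat.succ_pos C0
  set B : ℝ := ∑ j ∈ Finset.range (2 ^ C), (kk 2 j : ℝ) with hB
  have hB0 : 0 ≤ B := Finset.sum_nonneg fun _ _ => Nat.cast_nonneg _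
  refine ⟨1 / C, by positivity, 4 + B, fun m N hm hN => ?_⟩
  have hm1 : (1 : ℝ) ≤ m := by exact_mod_cast hm
  have hpos : 0 ≤ (m : ℝ) ^ (-(1 / C : ℝ)) * 2 ^ m := by positivity
  by_cases hs : m < 2 ^ C
  · have h1 : (kk 2 m : ℝ) ≤ B :=
      Finset.single_le_sum (f := fun j => (kk 2 j : ℝ)) (fun _ _ => Nat.cast_nonneg _)
        (Finset.mem_range.2 hs)
    have h5 : (m : ℝ) ^ (-1 : ℝ) ≤ (m : ℝ) ^ (-(1 / C : ℝ)) :=
      Real.rpow_le_rpow_of_exponent_le hm1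
        (neg_le_neg ((div_le_one (by positivity)).2 hC1))
    have h6 : (m : ℝ) ≤ 2 ^ m := by exact_mod_cast Nat.lt_two_pow_self.le
    have h7 : 1 ≤ (m : ℝ) ^ (-(1 / C : ℝ)) * 2 ^ m := by
      calc (1 : ℝ) = (m : ℝ) ^ (-1 : ℝ) * m := by
            rw [Real.rpow_neg_one]; field_simp
        _ ≤ _ := mul_le_mul h5 h6 (by positivity) (by positivity)
    have h8 : (kk 2 m : ℝ) ≤ N := by nlinarith
    exact (kk_spec 2 m).mono (by exact_mod_cast h8)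
  · have hs' : 2 ^ C ≤ m := not_lt.1 hs
    have hl : C ≤ Nat.log 2 m := Nat.le_log_of_pow_le (by norm_num) hs'
    obtain ⟨k, hk⟩ : ∃ k, Nat.log 2 m / C = k + 1 :=
      ⟨Nat.log 2 m / C - 1, by have := Nat.div_pos hl hCp; omega⟩
    have h1 : C * (k + 1) ≤ Nat.log 2 m := by rw [← hk]; exact Nat.mul_div_le _ _
    have h2 : Nat.log 2 m < C * (k + 2) := by
      have := Nat.lt_mul_div_succ (Nat.log 2 m) hCp
      rwa [hk] at this
    have h3 : 2 ^ (C * (k + 1)) ≤ m :=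
      (Nat.pow_le_pow_right (by norm_num) h1).trans (Nat.pow_log_le_self 2 (by omega))
    have h4 : m ≤ (2 ^ (k + 2)) ^ C := by
      rw [← pow_mul, mul_comm]
      exact (Nat.lt_pow_succ_log_self (by norm_num) m).le.trans
        (Nat.pow_le_pow_right (by norm_num) h2)
    have hkm : k ≤ m := by
      have h5 : k + 1 ≤ C * (k + 1) := Nat.le_mul_of_pos_left _ hCp
      have h6 : Nat.log 2 m ≤ m := Nat.log_le_self 2 m
      omega
    have h5 : (m : ℝ) ^ (1 / C : ℝ) ≤ 2 ^ (k + 2) := by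
      have h6 : (m : ℝ) ≤ ((2 : ℝ) ^ (k + 2)) ^ C := by exact_mod_cast h4
      calc (m : ℝ) ^ (1 / C : ℝ) ≤ (((2 : ℝ) ^ (k + 2)) ^ C) ^ (1 / C : ℝ) :=
            Real.rpow_le_rpow (by positivity) h6 (by positivity)
        _ = 2 ^ (k + 2) := by
            rw [one_div]
            exact Real.pow_rpow_inv_natCast (by positivity) hCp.ne'
    have h6 : (1 : ℝ) ≤ 2 ^ (k + 2) * (m : ℝ) ^ (-(1 / C : ℝ)) := by
      rw [Real.rpow_neg (by positivity), ← div_eq_mul_inv, one_le_div (by positivity)]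
      exact h5
    have h7 : (2 : ℝ) ^ m = 2 ^ (m - k) * 2 ^ k := by rw [← pow_add, Nat.sub_add_cancel hkm]
    have h8 : (2 : ℝ) ^ (m - k) ≤ 4 * ((m : ℝ) ^ (-(1 / C : ℝ)) * 2 ^ m) := by
      have h9 := mul_le_mul_of_nonneg_left h6 (by positivity : (0 : ℝ) ≤ 2 ^ (m - k))
      rw [h7]
      rw [pow_add] at h9
      nlinarith
    have h9 : (2 : ℝ) ^ (m - k) ≤ N := by nlinarith
    exact (hC k m h3).mono (by exact_mod_cast h9)

theorem fixedN_of_dyadic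
    (h : ∃ C : ℕ, ∀ k m : ℕ, 2 ^ (C * (k + 1)) ≤ m → Forces 2 m (2 ^ (m - k))) :
    ∃ c : ℝ, 0 < c ∧ ∀ n : ℕ, 2 ≤ n → ∃ C : ℝ, ∀ m N : ℕ, 1 ≤ m →
      C * (m : ℝ) ^ ((n : ℝ) - 2 - c) * 2 ^ m ≤ N →
      ∀ G : Digraph (Fin N), (∀ v, ¬ G.Adj v v) →
        (∃ S : Finset (Fin N), S.card = n ∧ ∀ u ∈ S, ∀ v ∈ S, ¬ G.Adj u v) ∨
          ∃ f : Fin m → Fin N, Function.Injective f ∧ ∀ i j, i < j → G.Adj (f i) (f j) :=
  fixedN_poly (poly_of_dyadic h)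

end Pool.Agent.Work.MP_e10cd8_co.Tn
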