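import Pool.Agent.Lib.Ramsey.Finite

/-! A semicomplete relation on a large three-dimensional grid has a chain of length `q * q` inside
a subgrid of side `q`. -/

namespace Pool.Agent.Work.MP_e10cd8_co.Tn

open Classical

theorem hom1 (κ : Type) [Finite κ] [Nonempty κ] (q : ℕ) :
    ∃ L : ℕ, ∀ c : Fin L → Fin L → κ, ∃ α : Fin q → Fin L, StrictMono α ∧
      ∃ g : Ordering → κ, ∀ a a', c (α a) (α a') = g (compare a a') := by
  obtain ⟨L, -, hL⟩ := Pool.Agent.Lib.Ramsey.finite_ramsey (κ × κ × κ) (q + 1)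
  refine ⟨L, fun c => ?_⟩
  obtain ⟨g, hg, k, hk⟩ := hL (fun a b => (c a b, c b a, c a a))
  refine ⟨fun a => g a.castSucc, fun a b h => hg (Fin.castSucc_lt_castSucc_iff.mpr h),
    fun o => match o with | .lt => k.1 | .gt => k.2.1 | .eq => k.2.2, fun a a' => ?_⟩
  rcases lt_trichotomy a a' with h | h | h
  · rw [compare_lt_iff_lt.mpr h]
    exact congrArg Prod.fst (hk _ _ (Fin.castSucc_lt_castSucc_iff.mpr h))
  · subst h
    rw [compare_eq_iff_eq.mpr rfl]
    exact congrArg (fun x => x.2.2) (hk _ _ (Fin.castSucc_lt_last a))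
  · rw [compare_gt_iff_gt.mpr h]
    exact congrArg (fun x => x.2.1) (hk _ _ (Fin.castSucc_lt_castSucc_iff.mpr h))

/-- How a coordinate follows the two directions of a plane grid. -/
inductive Lab
  | a | a' | b | b' | z

/-- The comparison of a coordinate from the comparisons of the two directions. -/
def ev : Lab → Ordering → Ordering → Ordering
  | .a, s, _ => s
  | .a', s, _ => s.swap
  | .b, _, t => t
  | .b', _, t => t.swap
  | .z, _, _ => .eq

/-- The coordinate itself. -/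
def co {q : ℕ} (z0 : Fin q) : Lab → Fin q → Fin q → Fin q
  | .a, i, _ => i
  | .a', i, _ => i.rev
  | .b, _, j => j
  | .b', _, j => j.rev
  | .z, _, _ => z0

theorem cmp_rev {q : ℕ} (i i' : Fin q) : compare i.rev i'.rev = (compare i i').swap := by
  rcases lt_trichotomy i i' with h | h | h
  · rw [compare_lt_iff_lt.mpr h, compare_gt_iff_gt.mpr (Fin.rev_lt_rev.mpr h)]; rfl
  · subst h; rw [compare_eq_iff_eq.mpr rfl, compare_eq_iff_eq.mpr rfl]; rfl
  · rw [compare_gt_iff_gt.mpr h, compare_lt_iff_lt.mpr (Fin.rev_lt_rev.mpr h)]; rfl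

theorem cmp_co {q : ℕ} (z0 : Fin q) (d : Lab) (i j i' j' : Fin q) :
    compare (co z0 d i j) (co z0 d i' j') = ev d (compare i i') (compare j j') := by
  cases d <;> simp only [co, ev, cmp_rev]
  exact compare_eq_iff_eq.mpr rfl

/-- A plane in which the four lexicographic types are all arcs. -/
def Flat (g : Ordering → Ordering → Ordering → Prop) (d1 d2 d3 : Lab) : Prop :=
  g (ev d1 .lt .lt) (ev d2 .lt .lt) (ev d3 .lt .lt) ∧
  g (ev d1 .lt .eq) (ev d2 .lt .eq) (ev d3 .lt .eq) ∧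
  g (ev d1 .lt .gt) (ev d2 .lt .gt) (ev d3 .lt .gt) ∧
  g (ev d1 .eq .lt) (ev d2 .eq .lt) (ev d3 .eq .lt)

theorem sign_core (g : Ordering → Ordering → Ordering → Prop)
    (hg : ∀ o1 o2 o3, ¬ (o1 = .eq ∧ o2 = .eq ∧ o3 = .eq) →
      g o1 o2 o3 ∨ g o1.swap o2.swap o3.swap)
    (e1 : g .lt .eq .eq) (e2 : g .eq .lt .eq) (e3 : g .eq .eq .lt) :
    ∃ d1 d2 d3, Flat g d1 d2 d3 := by
  by_contra H
  have H' : ∀ d1 d2 d3, ¬ Flat g d1 d2 d3 := fun d1 d2 d3 h => H ⟨d1, d2, d3, h⟩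
  have s1 := hg .lt .gt .eq (by simp)
  have s2 := hg .lt .lt .eq (by simp)
  have s3 := hg .lt .lt .lt (by simp)
  have s4 := hg .lt .lt .gt (by simp)
  have s5 := hg .lt .gt .gt (by simp)
  have s6 := hg .lt .eq .gt (by simp)
  have s7 := hg .eq .lt .gt (by simp)
  have s8 := hg .eq .lt .lt (by simp)
  have p1 := H' .a .b .z
  have p2 := H' .b .a .z
  have p3 := H' .a' .a' .b
  have p4 := H' .b' .b' .a
  have p5 := H' .a .b .a'
  have p6 := H' .b .a .b'
  have p7 := H' .z .a .b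
  have p8 := H' .z .b .a
  have p9 := H' .b .a' .a'
  have p10 := H' .a .b' .b'
  have p12 := H' .b' .a .b
  simp only [Flat, ev, Ordering.swap] at s1 s2 s3 s4 s5 s6 s7 s8 p1 p2 p3 p4 p5 p6 p7 p8 p9 p10 p12
  have n1 : ¬ g .lt .lt .eq := fun h =>
    s1.elim (fun k => p1 ⟨h, e1, k, e2⟩) (fun k => p2 ⟨h, e2, k, e1⟩)
  have y1 := s2.resolve_left n1
  have n2 : ¬ g .gt .gt .lt := fun h =>
    s3.elim (fun k => p4 ⟨h, e3, k, y1⟩) (fun k => p3 ⟨h, y1, k, e3⟩)
  have y2 := s4.resolve_right n2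
  have n3 : ¬ g .lt .eq .gt := fun h =>
    s5.elim (fun k => p5 ⟨y2, h, k, e2⟩) (fun k => p6 ⟨y2, e2, k, h⟩)
  have y3 := s6.resolve_left n3
  have n4 : ¬ g .eq .lt .lt := fun h =>
    s7.elim (fun k => p7 ⟨h, e2, k, e3⟩) (fun k => p8 ⟨h, e3, k, e2⟩)
  have y4 := s8.resolve_left n4
  have n5 : ¬ g .lt .gt .gt := fun h =>
    s3.elim (fun k => p10 ⟨h, e1, k, y4⟩) (fun k => p9 ⟨h, y4, k, e1⟩)
  exact p12 ⟨s5.resolve_left n5, e2, y2, y3⟩

/-- Reverse a comparison or keep it. -/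
def fl (b : Bool) (o : Ordering) : Ordering := if b then o.swap else o

/-- Reverse a label or keep it. -/
def fd (b : Bool) (d : Lab) : Lab :=
  if b then (match d with | .a => .a' | .a' => .a | .b => .b' | .b' => .b | .z => .z) else d

theorem ev_fd (b : Bool) (d : Lab) (s t : Ordering) : ev (fd b d) s t = fl b (ev d s t) := by
  cases b <;> cases d <;> simp [ev, fd, fl]

theorem sign_lemma (g : Ordering → Ordering → Ordering → Prop)
    (hg : ∀ o1 o2 o3, ¬ (o1 = .eq ∧ o2 = .eq ∧ o3 = .eq) →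
      g o1 o2 o3 ∨ g o1.swap o2.swap o3.swap) :
    ∃ d1 d2 d3, Flat g d1 d2 d3 := by
  have h1 : ∃ b, g (fl b .lt) .eq .eq := by
    rcases hg .lt .eq .eq (by simp) with h | h
    exacts [⟨false, h⟩, ⟨true, h⟩]
  have h2 : ∃ b, g .eq (fl b .lt) .eq := by
    rcases hg .eq .lt .eq (by simp) with h | h
    exacts [⟨false, h⟩, ⟨true, h⟩]
  have h3 : ∃ b, g .eq .eq (fl b .lt) := by
    rcases hg .eq .eq .lt (by simp) with h | h
    exacts [⟨false, h⟩, ⟨true, h⟩]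
  obtain ⟨b1, h1⟩ := h1
  obtain ⟨b2, h2⟩ := h2
  obtain ⟨b3, h3⟩ := h3
  have he : ∀ b, fl b .eq = .eq := fun b => by cases b <;> rfl
  have hs : ∀ b o, fl b o.swap = (fl b o).swap := fun b o => by cases b <;> rfl
  have hi : ∀ b o, fl b o = .eq → o = .eq := fun b o => by cases b <;> cases o <;> simp [fl]
  obtain ⟨d1, d2, d3, h⟩ := sign_core (fun o1 o2 o3 => g (fl b1 o1) (fl b2 o2) (fl b3 o3))
    (fun o1 o2 o3 h => by
      rw [hs, hs, hs]
      exact hg _ _ _ (fun h' => h ⟨hi _ _ h'.1, hi _ _ h'.2.1, hi _ _ h'.2.2⟩))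
    (by simpa only [he] using h1) (by simpa only [he] using h2) (by simpa only [he] using h3)
  exact ⟨fd b1 d1, fd b2 d2, fd b3 d3, by simpa only [Flat, ev_fd] using h⟩

theorem grid (q : ℕ) (hq : 2 ≤ q) : ∃ L1 L2 L3 : ℕ,
    ∀ ρ : Fin L1 × Fin L2 × Fin L3 → Fin L1 × Fin L2 × Fin L3 → Prop,
      (∀ p p', p ≠ p' → ρ p p' ∨ ρ p' p) →
      ∃ (α : Fin q → Fin L1) (β : Fin q → Fin L2) (γ : Fin q → Fin L3)
        (z : Fin (q * q) → Fin q × Fin q × Fin q), ∀ i j, i < j →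
          ρ (α (z i).1, β (z i).2.1, γ (z i).2.2) (α (z j).1, β (z j).2.1, γ (z j).2.2) := by
  obtain ⟨L3, h3⟩ := hom1 (Ordering → Ordering → Prop) q
  obtain ⟨L2, h2⟩ := hom1 (Ordering → Fin L3 → Fin L3 → Prop) q
  obtain ⟨L1, h1⟩ := hom1 (Fin L2 → Fin L2 → Fin L3 → Fin L3 → Prop) q
  refine ⟨L1, L2, L3, fun ρ hρ => ?_⟩
  obtain ⟨α, hα, g1, hg1⟩ := h1 (fun a a' b b' c c' => ρ (a, b, c) (a', b', c'))
  obtain ⟨β, hβ, g2, hg2⟩ := h2 (fun b b' o c c' => g1 o b b' c c')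
  obtain ⟨γ, hγ, g3, hg3⟩ := h3 (fun c c' o1 o2 => g2 o2 o1 c c')
  have key : ∀ a b c a' b' c', ρ (α a, β b, γ c) (α a', β b', γ c') =
      g3 (compare c c') (compare a a') (compare b b') := by
    intro a b c a' b' c'
    have e1 := congrFun (congrFun (congrFun (congrFun (hg1 a a') (β b)) (β b')) (γ c)) (γ c')
    have e2 := congrFun (congrFun (congrFun (hg2 b b') (compare a a')) (γ c)) (γ c')
    have e3 := congrFun (congrFun (hg3 c c') (compare a a')) (compare b b')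
    exact e1.trans (e2.trans e3)
  let x0 : Fin q := ⟨0, by omega⟩
  let x1 : Fin q := ⟨1, by omega⟩
  have h01 : x0 < x1 := by simp [x0, x1, Fin.lt_def]
  have real : ∀ o : Ordering, ∃ a a' : Fin q, compare a a' = o ∧ compare a' a = o.swap ∧
      (a = a' → o = .eq) := by
    intro o
    cases o
    · exact ⟨x0, x1, compare_lt_iff_lt.mpr h01, compare_gt_iff_gt.mpr h01,
        fun h => absurd h h01.ne⟩
    · exact ⟨x0, x0, compare_eq_iff_eq.mpr rfl, compare_eq_iff_eq.mpr rfl, fun _ => rfl⟩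
    · exact ⟨x1, x0, compare_gt_iff_gt.mpr h01, compare_lt_iff_lt.mpr h01,
        fun h => absurd h h01.ne'⟩
  obtain ⟨d1, d2, d3, f1, f2, f3, f4⟩ := sign_lemma (fun o1 o2 o3 => g3 o3 o1 o2) (by
    intro o1 o2 o3 hne
    obtain ⟨a, a', ha, ha', ha''⟩ := real o1
    obtain ⟨b, b', hb, hb', hb''⟩ := real o2
    obtain ⟨c, c', hc, hc', hc''⟩ := real o3
    have := hρ (α a, β b, γ c) (α a', β b', γ c') (fun h => hne
      ⟨ha'' (hα.injective (congrArg Prod.fst h)),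
        hb'' (hβ.injective (congrArg (fun x => x.2.1) h)),
        hc'' (hγ.injective (congrArg (fun x => x.2.2) h))⟩)
    rw [key, key, ha, ha', hb, hb', hc, hc'] at this
    exact this)
  let e : Fin (q * q) ≃o Fin q ×ₗ Fin q := monoEquivOfFin _ (by simp)
  refine ⟨α, β, γ, fun i => (co x0 d1 (ofLex (e i)).1 (ofLex (e i)).2,
    co x0 d2 (ofLex (e i)).1 (ofLex (e i)).2, co x0 d3 (ofLex (e i)).1 (ofLex (e i)).2),
    fun i j hij => ?_⟩
  rw [key, cmp_co, cmp_co, cmp_co]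
  rcases Prod.Lex.lt_iff.mp (e.strictMono hij) with h | ⟨h, h'⟩
  · rw [compare_lt_iff_lt.mpr h]
    cases compare (ofLex (e i)).2 (ofLex (e j)).2
    exacts [f1, f2, f3]
  · rw [compare_eq_iff_eq.mpr h, compare_lt_iff_lt.mpr h']
    exact f4

end Pool.Agent.Work.MP_e10cd8_co.Tn
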