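import Pool.Agent.Work.MP_e10cd8_co.Tn.Box
import Pool.Agent.Work.MP_e10cd8_co.Tn.Chain

/-! The quantitative chain property of dense subsets of a cube. -/

namespace Pool.Agent.Work.MP_e10cd8_co.Tn

/-- A semicomplete relation on a subset of density `2 ^ (-d)` of a cube of side
`2 ^ (C * (d + k + 1))` has a chain with `k` more points than coordinates. -/
def Rounds (C : ℕ) : Prop :=
  ∀ (k d L : ℕ) (S : Finset (Fin L × Fin L × Fin L))
    (r : Fin L × Fin L × Fin L → Fin L × Fin L × Fin L → Prop),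
    (∀ p ∈ S, ∀ q ∈ S, p ≠ q → r p q ∨ r q p) → 2 ^ (C * (d + k + 1)) ≤ L →
    L ^ 3 ≤ 2 ^ d * S.card →
    ∃ (l : List (Fin L × Fin L × Fin L)) (A B D : Finset (Fin L)), l.Pairwise r ∧
      (∀ p ∈ l, p ∈ S ∧ p.1 ∈ A ∧ p.2.1 ∈ B ∧ p.2.2 ∈ D) ∧
      A.card + B.card + D.card + k ≤ l.length

end Pool.Agent.Work.MP_e10cd8_co.Tn
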